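import Pool.Agent.Helper47.FLG.Pde

/-!
# Packet FLG-PF1 (project FLG of helper47, MP_c98eff_gt)

Trace identity for alternating sums.
-/

set_option autoImplicit false

namespace Pool.Agent.Helper47.FLG

open Finset Pool.Agent.Helper47.RFn

theorem g_PF1 : G_PF1 := by
  intro N B _ _ S X
  have h1 : ∀ (s : Equiv.Perm (Fin N)) (i : Fin N),
      ∑ e, S (s i) e * X (Function.update (s : Fin N → Fin N) i e) =
        ∑ k, S (s i) (s k) * X (Function.update (s : Fin N → Fin N) i (s k)) := fun s i =>
    (Equiv.sum_comp s (fun e => S (s i) e * X (Function.update (s : Fin N → Fin N) i e))).symm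
  obtain ⟨G, hG⟩ : ∃ G : Fin N → Fin N → B, G = fun i k => ∑ s : Equiv.Perm (Fin N),
      (Equiv.Perm.sign s : ℤ) •
        (S (s i) (s k) * X (Function.update (s : Fin N → Fin N) i (s k))) := ⟨_, rfl⟩
  have h2 : (∑ s : Equiv.Perm (Fin N), (Equiv.Perm.sign s : ℤ) •
      ∑ i, ∑ e, S (s i) e * X (Function.update (s : Fin N → Fin N) i e)) = ∑ i, ∑ k, G i k := by
    simp only [h1, smul_sum, hG]
    rw [sum_comm]
    exact sum_congr rfl fun i _ => sum_comm
  have h3 : ∀ i k : Fin N, i ≠ k → G k i = - G i k := by
    intro i k hik
    simp only [hG]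
    rw [← Equiv.sum_comp (Equiv.mulRight (Equiv.swap i k))
      (fun s : Equiv.Perm (Fin N) => (Equiv.Perm.sign s : ℤ) •
        (S (s k) (s i) * X (Function.update (s : Fin N → Fin N) k (s i)))), ← sum_neg_distrib]
    refine sum_congr rfl fun s _ => ?_
    have e1 : (s * Equiv.swap i k) k = s i := by simp
    have e2 : (s * Equiv.swap i k) i = s k := by simp
    have e3 : Function.update ((s * Equiv.swap i k : Equiv.Perm (Fin N)) : Fin N → Fin N) k (s k) =
        Function.update (s : Fin N → Fin N) i (s k) := by
      funext l
      by_cases hl : l = k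
      · subst hl
        rw [Function.update_self, Function.update_of_ne (Ne.symm hik)]
      · by_cases hi : l = i
        · subst hi
          rw [Function.update_self, Function.update_of_ne hl, e2]
        · rw [Function.update_of_ne hl, Function.update_of_ne hi, Equiv.Perm.mul_apply,
            Equiv.swap_apply_of_ne_of_ne hi hl]
    simp only [Equiv.coe_mulRight, e1, e2, e3]
    rw [Equiv.Perm.sign_mul, Equiv.Perm.sign_swap hik]
    simp
  have h4 : ∑ i, ∑ k, (if i = k then (0 : B) else G i k) = 0 := by
    have e : ∑ i, ∑ k, (if i = k then (0 : B) else G i k) =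
        - ∑ i, ∑ k, (if i = k then (0 : B) else G i k) := by
      conv_lhs => rw [sum_comm]
      rw [← sum_neg_distrib]
      refine sum_congr rfl fun i _ => ?_
      rw [← sum_neg_distrib]
      refine sum_congr rfl fun k _ => ?_
      by_cases hik : i = k
      · simp [hik]
      · rw [if_neg hik, if_neg (Ne.symm hik), h3 i k hik]
    have e' : ∀ A : B, A = -A → A = 0 := by
      intro A hA
      have h5 : A + A = 0 := by
        nth_rewrite 1 [hA]
        exact neg_add_cancel A
      have h6 : A = (1 / 2 : ℝ) • (A + A) := by
        rw [← two_smul ℝ A, smul_smul]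
        norm_num
      rw [h6, h5, smul_zero]
    exact e' _ e
  have h5 : ∑ i, ∑ k, G i k = ∑ i, G i i := by
    have e : ∀ i k, G i k = (if i = k then G i k else 0) + (if i = k then (0 : B) else G i k) := by
      intro i k
      by_cases hik : i = k <;> simp [hik]
    calc ∑ i, ∑ k, G i k = ∑ i, ∑ k, ((if i = k then G i k else 0) +
          (if i = k then (0 : B) else G i k)) :=
          sum_congr rfl fun i _ => sum_congr rfl fun k _ => e i k
      _ = ∑ i, ∑ k, (if i = k then G i k else 0) +
          ∑ i, ∑ k, (if i = k then (0 : B) else G i k) := by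
          rw [← sum_add_distrib]
          exact sum_congr rfl fun i _ => sum_add_distrib
      _ = ∑ i, G i i := by
          rw [h4, add_zero]
          exact sum_congr rfl fun i _ => by simp
  rw [h2, h5]
  simp only [hG]
  rw [sum_comm, mul_sum]
  refine sum_congr rfl fun s _ => ?_
  rw [← smul_sum, mul_smul_comm]
  congr 1
  have h6 : ∀ i, Function.update (s : Fin N → Fin N) i (s i) = s := fun i =>
    Function.update_eq_self i _
  simp only [h6]
  rw [← sum_mul, Equiv.sum_comp s (fun i => S i i)]

end Pool.Agent.Helper47.FLG
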