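import Pool.Agent.Helper47.FLG.Fun

/-!
# Packet FLG-GBL (project FLG of helper47, MP_c98eff_gt)

Lower bound of the integral of the Pfaffian.
-/

set_option autoImplicit false

namespace Pool.Agent.Helper47.FLG

open Finset Pool.Agent.Helper47.RFn Pool.Agent.Helper73.RFn

/-- products of `Sm` functions -/
theorem gbl_prod (c1 : Goal_C1) {n : ℕ} {ι : Type} (s : Finset ι) (f : ι → EE n → ℝ)
    (hf : ∀ a ∈ s, Sm (f a)) : Sm (fun x => ∏ a ∈ s, f a x) := by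
  classical
  induction s using Finset.induction_on with
  | empty => simpa using (c1 n).1 1
  | insert a s ha ih =>
    simp only [prod_insert ha]
    exact (c1 n).2.2.2.1 _ _ (hf a (mem_insert_self a s))
      (ih fun b hb => hf b (mem_insert_of_mem hb))

theorem gbl_pff (c1 : Goal_C1) (fhm : FhmStmt) {m : ℕ} {A θ : MF (2 * m)} (hF : Frm A θ) :
    Sm (pff A θ) := by
  obtain ⟨-, -, -, hR, -, -, -, -, hν, -⟩ := (fhm (2 * m)).1 A θ hF
  have e : pff A θ = fun x => ∑ s : Equiv.Perm (Fin (2 * m + 1)),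
      ∑ p : Equiv.Perm (Fin (2 * m + 1)),
        (((Equiv.Perm.sign s : ℤ) * (Equiv.Perm.sign p : ℤ) : ℤ) : ℝ) *
          (nfc A (s 0) x * nfc A (p 0) x *
            ∏ j : Fin m, Rf A θ (s (pe j)) (s (po j)) (p (pe j)) (p (po j)) x) := by
    funext x
    simp only [pff, pft, alt, RT, zsmul_eq_mul]
  rw [e]
  have hmul := (c1 (2 * m)).2.2.2.1
  refine (c1 (2 * m)).2.2.2.2.2.1 _ _ _ fun s _ => ?_
  refine (c1 (2 * m)).2.2.2.2.2.1 _ _ _ fun p _ => ?_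
  refine hmul _ _ ((c1 (2 * m)).1 _) (hmul _ _ (hmul _ _ (hν _) (hν _)) ?_)
  exact gbl_prod c1 _ _ fun j _ => hR _ _ _ _

theorem gbl_mono {n : ℕ} {f g : EE n → ℝ}
    (hf : MeasureTheory.IntegrableOn f (Metric.ball (0 : EE n) 1))
    (hg : MeasureTheory.IntegrableOn g (Metric.ball (0 : EE n) 1))
    (h : ∀ x, x ≠ 0 → f x ≤ g x) :
    ∫ x in Metric.ball (0 : EE n) 1, f x ≤ ∫ x in Metric.ball (0 : EE n) 1, g x := by
  apply MeasureTheory.integral_mono_ae hf hg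
  have h2 : ∀ᵐ x : EE n ∂(MeasureTheory.volume.restrict (Metric.ball (0 : EE n) 1)), x ≠ 0 := by
    apply MeasureTheory.ae_restrict_of_ae
    exact MeasureTheory.Measure.ae_ne MeasureTheory.volume 0
  filter_upwards [h2] with x hx
  exact h x hx

/-- the pointwise lower bound -/
theorem gbl_num {m : ℕ} (hm : 1 ≤ m) {C5 κ0 κ e P : ℝ} (hκ0 : 0 < κ0)
    (hκ : κ0 ≤ κ) (he : C5 * e ≤ κ0)
    (hP : 2 ^ m * (Nat.factorial (2 * m) : ℝ) * κ ^ m - C5 * e * κ ^ (m - 1) ≤ P) :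
    κ0 ^ m ≤ P := by
  have h1 : (1 : ℝ) ≤ (Nat.factorial (2 * m) : ℝ) := by
    exact_mod_cast Nat.one_le_iff_ne_zero.2 (Nat.factorial_ne_zero _)
  have h2 : (2 : ℝ) ≤ 2 ^ m := by
    calc (2 : ℝ) = 2 ^ 1 := by norm_num
      _ ≤ 2 ^ m := pow_le_pow_right₀ (by norm_num) hm
  have hκ' : 0 < κ := lt_of_lt_of_le hκ0 hκ
  have h3 : C5 * e * κ ^ (m - 1) ≤ κ ^ m := by
    calc C5 * e * κ ^ (m - 1) ≤ κ * κ ^ (m - 1) :=
          mul_le_mul_of_nonneg_right (he.trans hκ) (by positivity)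
      _ = κ ^ m := by
          rw [← pow_succ']
          congr 1
          omega
  have h4 : κ0 ^ m ≤ κ ^ m := pow_le_pow_left₀ hκ0.le hκ m
  have h5 : 2 * κ ^ m ≤ 2 ^ m * (Nat.factorial (2 * m) : ℝ) * κ ^ m := by
    apply mul_le_mul_of_nonneg_right _ (by positivity)
    nlinarith
  linarith

theorem p_GBL (hGIN : G_GIN) (hVLT : VltStmt) (hLP : LpStmt) (hPF5 : G_PF5) (hFHM : FhmStmt)
    (hC1 : Goal_C1) (hC4 : Goal_C4) (hC6 : Goal_C6) : GblStmt := by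
  intro m hm
  have hn4 : 4 ≤ 2 * m := by omega
  obtain ⟨C5, hC5, h5⟩ := hPF5 m (by omega)
  obtain ⟨K, hK⟩ : ∃ K : ℝ, K = (((2 * m : ℕ) : ℝ) + 1) *
      (MeasureTheory.volume (Metric.ball (0 : EE (2 * m)) 1)).toReal / 4 := ⟨_, rfl⟩
  have hvol0 : 0 < (MeasureTheory.volume (Metric.ball (0 : EE (2 * m)) 1)).toReal := by
    apply ENNReal.toReal_pos
    · exact (Metric.measure_ball_pos MeasureTheory.volume _ one_pos).ne'
    · exact MeasureTheory.measure_ball_lt_top.ne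
  have hK0 : 0 < K := by
    rw [hK]
    positivity
  refine ⟨(1 / 2) ^ m * K, by positivity, ?_⟩
  intro T l0 C σ A θ hT hl0 hC hσ hσ1 hF hG hB t ht0 htT
  obtain ⟨C', hC', hLP2⟩ := hLP (2 * m) C σ hn4 hC hσ hσ1
  obtain ⟨τ, hL⟩ := hLP2 T l0 A θ hT hl0 hF hG hB
  obtain ⟨hτ0, hτT⟩ := hL.pos
  obtain ⟨t1, hτ1, ht1T, hV⟩ := hVLT (2 * m) C' σ hn4 hC' hσ hσ1 T τ A θ hF hL
  obtain ⟨N, hN⟩ : ∃ N : ℝ, N = ((2 * m : ℕ) : ℝ) - 1 := ⟨_, rfl⟩
  have hN3 : 3 ≤ N := by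
    have : (4 : ℝ) ≤ ((2 * m : ℕ) : ℝ) := by exact_mod_cast hn4
    rw [hN]
    linarith
  have hN0 : 0 < N := by linarith
  obtain ⟨η, hη⟩ : ∃ η : ℝ, η = 1 / (4 * N * (1 + C5)) := ⟨_, rfl⟩
  have hη0 : 0 < η := by
    rw [hη]
    positivity
  have hη4 : η ≤ 1 / 4 := by
    rw [hη]
    apply one_div_le_one_div_of_le (by norm_num)
    nlinarith
  have hp : 0 < σ / 2 := by positivity
  -- the choice of the time
  obtain ⟨s, hs1, hsT, hz⟩ : ∃ s, t1 ≤ s ∧ s < T ∧ C' * (2 * (T - s) / τ) ^ (σ / 2) ≤ η := by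
    have hB' : 0 < C' := by linarith
    have hη' : 0 < η / C' := by positivity
    have hT1 : 0 < T - t1 := by linarith
    have h1 : 0 < min (2 * (T - t1) / τ) ((η / C') ^ (σ / 2)⁻¹) := by
      apply lt_min
      · positivity
      · exact Real.rpow_pos_of_pos hη' _
    obtain ⟨ζ, hζ⟩ : ∃ ζ, ζ = min (2 * (T - t1) / τ) ((η / C') ^ (σ / 2)⁻¹) := ⟨_, rfl⟩
    rw [← hζ] at h1
    have h2 : ζ ≤ 2 * (T - t1) / τ := by rw [hζ]; exact min_le_left _ _
    have h3 : ζ ≤ (η / C') ^ (σ / 2)⁻¹ := by rw [hζ]; exact min_le_right _ _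
    refine ⟨T - ζ * τ / 2, ?_, ?_, ?_⟩
    · rw [le_div_iff₀ hτ0] at h2
      linarith
    · have : 0 < ζ * τ / 2 := by positivity
      linarith
    · have h4 : 2 * (T - (T - ζ * τ / 2)) / τ = ζ := by
        field_simp
        ring
      rw [h4]
      have h6 : ζ ^ (σ / 2) ≤ η / C' := by
        calc ζ ^ (σ / 2) ≤ ((η / C') ^ (σ / 2)⁻¹) ^ (σ / 2) :=
              Real.rpow_le_rpow h1.le h3 hp.le
          _ = η / C' := Real.rpow_inv_rpow hη'.le hp.ne'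
      calc C' * ζ ^ (σ / 2) ≤ C' * (η / C') := mul_le_mul_of_nonneg_left h6 hB'.le
        _ = η := by field_simp
  have hsτ : τ ≤ s := hτ1.trans hs1
  have hs0 : 0 < s := lt_of_lt_of_le hτ0 hsτ
  rw [hGIN m (by omega) T A θ hT hF t s ht0 htT hs0 hsT]
  have hfr : Frm (A s) (θ s) := ((hFHM (2 * m)).2 (Set.Ico 0 T) A θ hF).1 s ⟨hs0.le, hsT⟩
  obtain ⟨hmet, -, -, -, -, -, -, -, -, -, -, hν1, -⟩ := (hFHM (2 * m)).1 (A s) (θ s) hfr
  obtain ⟨D, hD⟩ : ∃ D : ℝ, D = T - s := ⟨_, rfl⟩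
  have hD0 : 0 < D := by rw [hD]; linarith
  obtain ⟨κ0, hκ0⟩ : ∃ κ0 : ℝ, κ0 = 1 / (4 * N * D) := ⟨_, rfl⟩
  have hκ0p : 0 < κ0 := by
    rw [hκ0]
    positivity
  have hpt : ∀ x, x ≠ 0 → κ0 ^ m ≤ pff (A s) (θ s) x := by
    intro x hx
    obtain ⟨h1, h2⟩ := hL.aft s hsτ hsT x hx
    rw [← hD] at h1 h2 hz
    obtain ⟨Z, hZ⟩ : ∃ Z, Z = C' * (2 * D / τ) ^ (σ / 2) := ⟨_, rfl⟩
    rw [← hZ] at h1 h2 hz
    have hZD : Z / D ≤ η / D := div_le_div_of_nonneg_right hz hD0.le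
    have hL4 : 1 / (4 * D) ≤ lamf (A s) (θ s) x := by
      have h3 := (abs_le.1 h1).1
      have h4 : η / D ≤ 1 / (4 * D) := by
        calc η / D ≤ (1 / 4) / D := div_le_div_of_nonneg_right hη4 hD0.le
          _ = 1 / (4 * D) := by
            field_simp
      have h6 : 1 / (2 * D) = 1 / (4 * D) + 1 / (4 * D) := by
        field_simp
        ring
      linarith
    have hκ : κ0 ≤ lamf (A s) (θ s) x / N := by
      rw [le_div_iff₀ hN0, hκ0]
      calc 1 / (4 * N * D) * N = 1 / (4 * D) := by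
            field_simp
        _ ≤ _ := hL4
    have hee : η / D * (1 + C5) = κ0 := by
      rw [hη, hκ0]
      field_simp
    have he0 : 0 < η / D := by positivity
    have he1 : η / D ≤ κ0 := by
      rw [← hee]
      nlinarith
    have he2 : C5 * (η / D) ≤ κ0 := by
      rw [← hee]
      nlinarith
    refine gbl_num (by omega) hκ0p hκ he2 ?_
    refine (h5 (RT (A s) (θ s) x) (fun a => nfc (A s) a x) (hν1 x hx)).2.2.1 _ _ he0.le
      (he1.trans hκ) ?_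
    intro a b c d
    have e : RT (A s) (θ s) x a b c d -
        ((lamf (A s) (θ s) x / N) • wdg (Pm fun a => nfc (A s) a x) (Pm fun a => nfc (A s) a x))
          a b c d = Ef (A s) (θ s) a b c d x := by
      simp only [Pi.smul_apply, smul_eq_mul, wdg, Pm, RT, Ef, Pff, hN]
      ring
    rw [e]
    exact (h2 a b c d).trans hZD
  have hsd : Sm (fun x => Real.sqrt (gOf (θ s) x).det) := (hC6 (2 * m) _ hmet).2.2.1
  have hi1 := (hC4 (2 * m)).2.1 _ hsd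
  have hi2 := (hC4 (2 * m)).2.1 _ ((hC1 (2 * m)).2.2.2.1 _ _ (gbl_pff hC1 hFHM hfr) hsd)
  have h3 : ∫ x in Metric.ball (0 : EE (2 * m)) 1, κ0 ^ m * Real.sqrt (gOf (θ s) x).det ≤
      ∫ x in Metric.ball (0 : EE (2 * m)) 1,
        pff (A s) (θ s) x * Real.sqrt (gOf (θ s) x).det := by
    apply gbl_mono (hi1.const_mul _) hi2
    intro x hx
    exact mul_le_mul_of_nonneg_right (hpt x hx) (Real.sqrt_nonneg _)
  rw [MeasureTheory.integral_const_mul] at h3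
  have h4 := hV s hs1 hsT
  rw [← hK, ← hN, ← hD] at h4
  unfold gvol integ at h4
  unfold integ
  have h6 : Real.sqrt (2 * N * D) ^ (2 * m) = (2 * N * D) ^ m := by
    rw [pow_mul, Real.sq_sqrt (by positivity)]
  rw [h6] at h4
  have h7 : (1 / 2) ^ m * K = κ0 ^ m * ((2 * N * D) ^ m * K) := by
    rw [← mul_assoc, ← mul_pow]
    congr 2
    rw [hκ0]
    field_simp
    norm_num
  rw [h7]
  calc κ0 ^ m * ((2 * N * D) ^ m * K)
      ≤ κ0 ^ m * ((((2 * m : ℕ) : ℝ) + 1) *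
          ∫ x in Metric.ball (0 : EE (2 * m)) 1, Real.sqrt (gOf (θ s) x).det) :=
        mul_le_mul_of_nonneg_left h4 (by positivity)
    _ = (((2 * m : ℕ) : ℝ) + 1) * (κ0 ^ m *
          ∫ x in Metric.ball (0 : EE (2 * m)) 1, Real.sqrt (gOf (θ s) x).det) := by ring
    _ ≤ _ := mul_le_mul_of_nonneg_left h3 (by positivity)

end Pool.Agent.Helper47.FLG
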